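import Pool.Agent.U331.FS.V
import Pool.Agent.Results.MP_83e36b_nt.CyclicNormForms

/-!
# Cyclic norm forms: weak approximation near ALL integral combinations of an infinite sequence, for all polynomials at once

Let the `Kᵢ` be admissible cyclic subfields of a cyclotomic field, and let `(f_j, c_j, T_j, N_j)` be any sequence of integral
polynomials of degree at least two in any numbers of variables, of vectors of nonzero integers, of finite sets of primes and of
levels (for example an enumeration of ALL of them, with `T_j ⊇ T₀(f_j, c_j)`). We show that EVERY set `B` of natural numbers of positive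
lower density contains an infinite sequence `a_0, a_1, …` such that for ALL nonzero integral vectors `u` with finite support and
entries of absolute value at most `H`, with largest index `n`, for ALL integers `k` with `||k| - |∑ uᵢ aᵢ|| ≤ n` which satisfy the
condition at the real place and for ALL `j ≤ n` the variety `V_k : N_{Kᵢ/ℚ}(zᵢ) = c_{j,i} (f_j(t) + k) ≠ 0` satisfies weak approximation
of level `N_j` at the primes of `T_j`. There is no exception among the infinitely many combinations.

Proof: a greedy choice. At the step `n` there are at most `(2 H + 1) ^ (n + 1)` conditions for the new term, each of them excludes at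
most twice as many integers as there are integers near the exceptions of the starting result `CyclicNormForms` for the
first `n + 1` data, and these have density zero (`Pool.Agent.U331.FS`).
-/

set_option autoImplicit false

namespace Pool.Agent.Results.MP_83e36b_nt.AllCombinations

open MvPolynomial Module
open Pool.Agent.U331.FS (AllSumsDens all_sums_seq_int of_log)
open Pool.Agent.Results.MP_83e36b_nt.CyclicNormForms (Admissible WeakApproximation RealCond)

variable {L : Type} [Field L] [NumberField L] {r : ℕ}

/-- an integral polynomial of degree at least `2` in `s` variables, a vector of nonzero integers, a finite set of primes, a level -/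
structure Data (r : ℕ) where
  /-- the number of variables -/
  s : ℕ
  /-- the polynomial -/
  f : MvPolynomial (Fin s) ℤ
  /-- the coefficients -/
  c : Fin r → ℤ
  /-- the finite set of primes -/
  T : Finset Nat.Primes
  /-- the level of the approximation -/
  N : ℕ
  /-- the degree is at least two -/
  two_le : 2 ≤ f.totalDegree
  /-- the coefficients are not zero -/
  ne_zero : ∀ i, c i ≠ 0

/-- The degree of `f` is prime to the degrees of the `Kᵢ`, and it is odd or `-1` is a norm from all the `Kᵢ`. -/
def Strong (K : Fin r → IntermediateField ℚ L) {s : ℕ} (f : MvPolynomial (Fin s) ℤ) : Prop :=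
  (∀ i, f.totalDegree.Coprime (finrank ℚ (K i))) ∧ (Odd f.totalDegree ∨ ∀ i, ∃ x : K i, Algebra.norm ℚ x = -1)

/-- For ALL `j ≤ n` and ALL integers `k` with `||k| - v| ≤ n` which satisfy the condition at the real place weak approximation
holds for the data with the number `j`. -/
def Near (K : Fin r → IntermediateField ℚ L) (D : ℕ → Data r) (n v : ℕ) : Prop :=
  ∀ j ≤ n, ∀ k : ℤ, |(|k| : ℤ) - v| ≤ n → RealCond K (D j).f (D j).c k →
    WeakApproximation K (D j).f (D j).c (D j).T (D j).N k

/-- The same without the condition at the real place, for the coefficients `1`. -/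
def NearOne (K : Fin r → IntermediateField ℚ L) (D : ℕ → Data r) (n v : ℕ) : Prop :=
  ∀ j ≤ n, ∀ k : ℤ, |(|k| : ℤ) - v| ≤ n → WeakApproximation K (D j).f (fun _ => 1) (D j).T (D j).N k

/-- **Theorem.** Let `L` be the `m`-th cyclotomic field, `Kᵢ` admissible cyclic subfields. (1) There are finite sets `T₀ s f c` of
primes such that for all sequences of data with `T₀ s_j f_j c_j ⊆ T_j` the property `Near K D n v` holds for all combinations `v` with
bounded coefficients and largest index `n` of an infinite sequence in every set of positive lower density (`AllSumsDens`).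
(2) The same holds for `NearOne K D n v` and all sequences of data with `Strong K f_j`, without condition on the `T_j`. -/
theorem result (m : ℕ) [NeZero m] [IsCyclotomicExtension {m} ℚ L] (K : Fin r → IntermediateField ℚ L)
    (hK : ∀ i, Admissible (K i)) :
    (∃ T₀ : (s : ℕ) → MvPolynomial (Fin s) ℤ → (Fin r → ℤ) → Finset Nat.Primes, ∀ D : ℕ → Data r,
      (∀ j, T₀ (D j).s (D j).f (D j).c ⊆ (D j).T) → AllSumsDens (fun n _ v => Near K D n v)) ∧
    ∀ D : ℕ → Data r, (∀ j, Strong K (D j).f) → AllSumsDens (fun n _ v => NearOne K D n v) := by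
  classical
  constructor
  · have h0 : ∀ (s : ℕ) (f : MvPolynomial (Fin s) ℤ) (c : Fin r → ℤ), ∃ T₀ : Finset Nat.Primes,
        2 ≤ f.totalDegree → (∀ i, c i ≠ 0) → ∀ T : Finset Nat.Primes, T₀ ⊆ T → ∀ N U : ℕ, ∃ X₀ : ℕ, ∀ X : ℕ, X₀ ≤ X →
          (((Finset.Icc (-(X : ℤ)) X).filter (fun k => ¬ (RealCond K f c k → WeakApproximation K f c T N k))).card : ℝ) ≤
            X / Real.log X ^ U := by
      intro s f c
      by_cases hf : 2 ≤ f.totalDegree
      · by_cases hc : ∀ i, c i ≠ 0
        · obtain ⟨T₀, h⟩ := (CyclicNormForms.result m K hK f hf).1 c hc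
          refine ⟨T₀, fun _ _ T hT N U => ?_⟩
          obtain ⟨X₀, h⟩ := h T hT N U
          refine ⟨X₀, fun X hX => ?_⟩
          convert h X hX using 3
        · exact ⟨∅, fun _ h => absurd h hc⟩
      · exact ⟨∅, fun h => absurd h hf⟩
    choose T₀ hT₀ using h0
    refine ⟨T₀, fun D hD => ?_⟩
    refine all_sums_seq_int (G := fun j k => RealCond K (D j).f (D j).c k →
      WeakApproximation K (D j).f (D j).c (D j).T (D j).N k) (fun j => of_log ?_)
    obtain ⟨X₀, h⟩ := hT₀ (D j).s (D j).f (D j).c (D j).two_le (D j).ne_zero (D j).T (hD j) (D j).N 1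
    refine ⟨X₀, fun X hX => ?_⟩
    have e : {k : ℤ | |k| ≤ (X : ℤ) ∧ ¬ (RealCond K (D j).f (D j).c k →
        WeakApproximation K (D j).f (D j).c (D j).T (D j).N k)} =
        (((Finset.Icc (-(X : ℤ)) X).filter (fun k => ¬ (RealCond K (D j).f (D j).c k →
          WeakApproximation K (D j).f (D j).c (D j).T (D j).N k)) : Finset ℤ) : Set ℤ) := by
      ext k
      simp only [Finset.coe_filter, Finset.mem_Icc, Set.mem_ofPred_eq, abs_le]
    rw [e, Set.ncard_coe_finset]
    have h3 := h X hX
    rwa [pow_one] at h3
  · intro D hD
    refine all_sums_seq_int (G := fun j k => WeakApproximation K (D j).f (fun _ => 1) (D j).T (D j).N k)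
      (fun j => of_log ?_)
    obtain ⟨X₀, h⟩ := (CyclicNormForms.result m K hK (D j).f (D j).two_le).2 (hD j).1 (hD j).2 (D j).T (D j).N 1
    refine ⟨X₀, fun X hX => ?_⟩
    have e : {k : ℤ | |k| ≤ (X : ℤ) ∧ ¬ WeakApproximation K (D j).f (fun _ => 1) (D j).T (D j).N k} =
        (((Finset.Icc (-(X : ℤ)) X).filter
          (fun k => ¬ WeakApproximation K (D j).f (fun _ => 1) (D j).T (D j).N k) : Finset ℤ) : Set ℤ) := by
      ext k
      simp only [Finset.coe_filter, Finset.mem_Icc, Set.mem_ofPred_eq, abs_le]
    rw [e, Set.ncard_coe_finset]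
    have h3 := h X hX
    rw [pow_one] at h3
    convert h3 using 3

end Pool.Agent.Results.MP_83e36b_nt.AllCombinations
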