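import Pool.Agent.U331.SU.Sum
import Pool.Agent.Results.MP_3aaefc_nt.WalkLinearPolynomials

/-!
# The number of all `n ≤ x` with `p_n + 2 (a n + N)` prime, for almost all slopes `a` and almost all multiples `N` of
sums of independent random integers (words of codes at arbitrary positions, for example)

The linear polynomials are `P(n) = a n + N` with `N = h M (c + κ v)`, where `M` is the product of the primes `≤ y` and the `v` are sums of
independent random integers with a joint lattice condition (`Sums`); no single digit of them needs to be variable. The sum over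
`v` in the theorem is the probability that `v` does not have the property.

From Mathlib: `Nat.nth Nat.Prime`: the sequence of the primes; `primorial y`: the product of the primes `≤ y`;
`Finset.Icc 1 x`: the integers from `1` to `x`; `s ×ˢ t`: the product of two finite sets.

Method. New here: the exponential sums over such random integers. If the product of a frequency with `R b ^ j` is far from
the integers, then so is its product with one of the differences `x_t - y_t`, and the characteristic function of the
summand number `n_t` loses a constant factor at this frequency. So the exponential sum decays exponentially in the number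
of the positions at which the frequency, multiplied with `R`, is far from the integers (`Pool.Agent.U331.SU`). The passage
from such a decay to the sieve, to the second moment and to the number of the primes in random translates is helper847's
(`Pool.Agent.U847.XP.SCls`, generic in the class of distributions, after the starting files `Pool.Agent.N625.PT.X2` - `X12`),
and the law for the polynomials is his `Pool.Agent.Results.MP_3aaefc_nt.WalkLinearPolynomials.main`.
-/

set_option autoImplicit false

namespace Pool.Agent.Results.MP_3aaefc_nt.IndependentSumLinearPolynomials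

open Finset

/-- `p` is the distribution of a sum of `N` independent random integers: the summand number `n` takes the values `x ∈ S n` with
the probabilities `π n x`, and the values of the sum are `< b ^ k`. For all but at most `s` of the positions `j < k` the number
`R b ^ j` is a combination `∑ t, c_t (x_t - y_t)`, `t < s`, with integers `|c_t| ≤ s`, where `x_t` and `y_t` are values which one
of the summands, the one with the number `n_t`, takes with a probability of at least `η`; and every summand is used in this
way for at most `s` positions. (Examples: independent random digits, each from an arbitrary set with at least two elements;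
palindromes with independent pairs of opposite digits, `R = b ^ 2 - 1`; the integers whose digits in arbitrary blocks of
boundedly many positions are independent random words of arbitrary codes which are not contained in a hyperplane, no single
digit of which needs to be variable; sums of several integers of this kind.) -/
structure Sums (b s R : ℕ) (η : ℝ) (k : ℕ) (p : ℕ → ℝ) : Prop where
  ex : ∃ (N : ℕ) (S : Fin N → Finset ℕ) (π : Fin N → ℕ → ℝ),
    (∀ n, (∀ x, 0 ≤ π n x) ∧ ∑ x ∈ S n, π n x = 1) ∧
    (∀ x ∈ Fintype.piFinset S, ∑ n, x n < b ^ k) ∧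
    (∀ v, p v = ∑ x ∈ (Fintype.piFinset S).filter (fun x => ∑ n, x n = v), ∏ n, π n (x n)) ∧
    ∃ (J : Finset ℕ) (n : ℕ → Fin s → Fin N) (c : ℕ → Fin s → ℤ) (x y : ℕ → Fin s → ℕ),
      (J ⊆ range k ∧ k ≤ J.card + s) ∧
      (∀ j ∈ J, ((R * b ^ j : ℕ) : ℤ) = ∑ t, c j t * ((x j t : ℤ) - y j t)) ∧
      (∀ j ∈ J, ∀ t, |c j t| ≤ s ∧ (x j t ∈ S (n j t) ∧ y j t ∈ S (n j t)) ∧
        η ≤ π (n j t) (x j t) ∧ η ≤ π (n j t) (y j t)) ∧
      ∀ m : Fin N, (J.filter fun j => ∃ t, n j t = m).card ≤ s

lemma conv {b s R : ℕ} {η : ℝ} {k : ℕ} {p : ℕ → ℝ} (h : Sums b s R η k p) : Pool.Agent.U331.SU.Sums b s R η k p := ⟨h.ex⟩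

/-- the `n`-th prime, `n ≥ 1` -/
noncomputable def p (n : ℕ) : ℕ := Nat.nth Nat.Prime (n - 1)

/-- the product of `1 - 1/q` over the primes `q ≤ y` -/
noncomputable def V (y : ℕ) : ℝ := ∏ q ∈ (Icc 1 y).filter Nat.Prime, (1 - 1 / (q : ℝ))

/-- the multiple of the product of the primes `≤ y` given by the integers `h` and `c + κ v` -/
def Nv (y h : ℕ) (c κ : ℤ) (v : ℕ) : ℤ := ((primorial y * h : ℕ) : ℤ) * (c + κ * v)

/-- the `1 ≤ i ≤ x` such that `p_i + 2 P(i)` is prime, for the linear polynomial `P(i) = a i + n` -/
noncomputable def Good (a x : ℕ) (n : ℤ) : Finset ℕ := (Icc 1 x).filter (fun i : ℕ => ((p i : ℤ) + 2 * (a * i + n)).toNat.Prime)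

/-- the `1 ≤ i ≤ x` such that `p_i + 2 a i` is prime to `D` -/
noncomputable def Adm (a D x : ℕ) : Finset ℕ := (Icc 1 x).filter (fun i : ℕ => (p i + 2 * a * i).Coprime D)

open Classical in
/-- Let `b ≥ 2`, `s`, `R ≥ 1`, `η > 0`, `κ ≠ 0`, `B`, `J`, `C`, `K₁`, `θ > 0` and `0 < ε ≤ 1` be fixed, let `k` be large, let `μ` be a
distribution on the words of `k` digits in base `b` with `Sums b s R η k μ`, let `y` be between `θ log k` and `K₁ log k`
(`θ > 0` is arbitrary), `M` the product of the primes `≤ y`, `|c| ≤ B b ^ k`, and let `x` be an integer with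
`b ^ k ≤ x k ^ C`, `x ≤ b ^ k k ^ C`, and `A, H ≤ k ^ J`. For `a ≤ A`, `1 ≤ h ≤ H` let
`E_{a,h} = #{i ≤ x: p_i + 2 a i prime to M h} / (V y log b ^ k)`; this set has at least `⌊x / (M h)⌋` elements. Then the
random integer `v` with the distribution `μ` has with a probability of at least `1 - ε` the property: for all but at most
`ε (A + 1) H` of the pairs `(a, h)`, `0 ≤ a ≤ A`, `1 ≤ h ≤ H`, if `N_h = h M (c + κ v) > 0`, then the number of ALL `i ≤ x`
such that `p_i + 2 P(i)` is prime for the polynomial `P(i) = a i + N_h` differs from `E_{a,h}` by at most `ε E_{a,h}`. -/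
theorem result (b : ℕ) (hb : 2 ≤ b) (s R : ℕ) (hR : 1 ≤ R) (η : ℝ) (hη0 : 0 < η) (κ : ℤ) (hκ : κ ≠ 0)
    (B J C K₁ : ℕ) (θ : ℝ) (hθ : 0 < θ) (ε : ℝ) (hε : 0 < ε) (hε1 : ε ≤ 1) :
    ∃ k₀ : ℕ, ∀ k : ℕ, k₀ ≤ k → ∀ μ : ℕ → ℝ, Sums b s R η k μ →
      ∀ y : ℕ, θ * Real.log k ≤ y → y ≤ K₁ * Real.log k → ∀ c : ℤ, |c| ≤ B * (b : ℤ) ^ k →
      ∀ A H : ℕ, A ≤ k ^ J → H ≤ k ^ J → ∀ x : ℕ, b ^ k ≤ x * k ^ C → x ≤ b ^ k * k ^ C →
        (∀ a h : ℕ, x / (primorial y * h) ≤ (Adm a (primorial y * h) x).card) ∧
        ∑ v ∈ range (b ^ k), (if (((range (A + 1) ×ˢ Icc 1 H).filter (fun z => ¬ (0 < Nv y z.2 c κ v →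
          |((Good z.1 x (Nv y z.2 c κ v)).card : ℝ) - (Adm z.1 (primorial y * z.2) x).card / (V y * (k * Real.log b))| ≤
            ε * ((Adm z.1 (primorial y * z.2) x).card / (V y * (k * Real.log b)))))).card : ℝ) ≤ ε * ((A + 1) * H)
          then 0 else μ v) ≤ ε := by
  obtain ⟨k₀, h0⟩ := Pool.Agent.Results.MP_3aaefc_nt.WalkLinearPolynomials.main b _ hb (Pool.Agent.U331.SU.Sums b s R η)
    (Pool.Agent.U331.SU.sums_scls b s R hb hR η hη0) κ hκ B J C K₁ θ hθ ε hε hε1
  exact ⟨k₀, fun k hk μ hμ => h0 k hk μ (conv hμ)⟩

end Pool.Agent.Results.MP_3aaefc_nt.IndependentSumLinearPolynomials
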