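import Pool.Agent.U331.FS.H
import Pool.Agent.Results.MP_3f8e47_nt.TypicalDefect

/-!
# The gcd recursion for prime triples: large defects at ALL integral combinations of an infinite sequence in every dense set

Let `f(N)` be the least zero of the recursion `a_N` and let `ψ` tend to infinity. We show that EVERY set `B` of natural numbers with
at least `c N` elements up to `N` for all large `N` contains the terms of an infinite sequence `x_n ≤ M(n)`, where the function `M` does
not depend on `B`, with the following property. For ALL nonzero integral vectors `u` with finite support and entries of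
absolute value at most `H`, with largest index `n`, and for `v = |∑ uᵢ xᵢ|`, ALL `N ≥ 6` with `|N - v| ≤ n` satisfy
`N - f(N) > (log N) ^ 3 / ψ(N)`. There is no exception among the infinitely many combinations.

Proof: a greedy choice. At the step `n` there are at most `(2 H + 1) ^ (n + 1)` conditions for the new term, each of them excludes at
most twice as many integers as there are integers near the exceptions of the starting result `TypicalDefect`, and these have
density zero (`Pool.Agent.U331.FS`).
-/

set_option autoImplicit false

namespace Pool.Agent.Results.MP_3f8e47_nt.AllCombinations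

open Finset Filter
open Pool.Agent.U331.FS (AllSumsDens all_sums_windows of_tendsto)
open Pool.Agent.Results.MP_3f8e47_nt.TypicalDefect (f)

/-- ALL `N ≥ 6` with `|N - v| ≤ w` satisfy `N - f(N) > (log N) ^ 3 / ψ(N)`. -/
def Near (ψ : ℕ → ℝ) (w v : ℕ) : Prop :=
  ∀ N : ℕ, 6 ≤ N → |(N : ℤ) - v| ≤ w → Real.log N ^ 3 / ψ N < (N : ℝ) - f N

/-- **Theorem.** Let `ψ` tend to infinity. Then the property `Near ψ n v` holds for all combinations `v` with bounded coefficients and
largest index `n` of an infinite sequence in every set of positive lower density (`AllSumsDens`). -/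
theorem result (ψ : ℕ → ℝ) (hψ : Tendsto ψ atTop atTop) : AllSumsDens (fun n _ v => Near ψ n v) := by
  classical
  have h := TypicalDefect.result.2 ψ hψ
  intro c hc H N₀
  obtain ⟨M, hM, h1⟩ := all_sums_windows (Good := fun N => 6 ≤ N → Real.log N ^ 3 / ψ N < (N : ℝ) - f N) (fun ε hε => by
    obtain ⟨X₀, hX₀⟩ := of_tendsto h ε hε
    refine ⟨X₀, fun X hX => le_trans (le_of_eq ?_) (hX₀ X hX)⟩
    rw [← Set.ncard_coe_finset]
    congr 2
    ext n
    simp only [coe_filter, mem_Icc, Set.mem_ofPred_eq, Classical.not_imp, not_lt]
    constructor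
    · rintro ⟨_, h2, h3, h4⟩
      exact ⟨⟨h3, h2⟩, h4⟩
    · rintro ⟨⟨h3, h2⟩, h4⟩
      exact ⟨by omega, h2, h3, h4⟩) c hc H N₀
  refine ⟨M, hM, fun B hB => ?_⟩
  obtain ⟨a, h2, h3, h4⟩ := h1 B hB
  refine ⟨a, h2, h3, fun u hu n hn hmax => ?_⟩
  obtain ⟨h5, h6, h7⟩ := h4 u hu n hn hmax
  exact ⟨h5, h6, fun N hN hNv => h7 N (by omega) hNv hN⟩

end Pool.Agent.Results.MP_3f8e47_nt.AllCombinations
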