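import Pool.Agent.U331.SR.Avg

/-!
# Montgomery's conjecture on average over residues near very smooth numbers, for all moduli `≤ x ^ (1 - o(1))`

The error terms `ψ(x; m, a) - x / φ(m)` for ALL the moduli `m ≤ X / exp (D (log log X) ^ 2)`, with absolute values and
divisor weights, are small on average over residues `a` which are arbitrary integers near the integers composed of the
primes of an arbitrary (not too small) set, in particular near the `y`-smooth integers, `y ≥ (log N) ^ (1 + δ)`. The weights of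
the average are arbitrary, so that the residues can be restricted to any subset which is not too thin. The sets of residues
can have fewer than `N ^ δ` elements below `N`.

Method: the large spectrum of a law which dominates the uniform law on these integers is thin (helper308,
`Pool.Agent.U308.TL`), weighted levels of distribution for almost all residues follow from the dispersion argument of the
starting library (`Pool.Agent.Y885.tl_levels`), and the duality principle `Pool.Agent.TH872.GQ.absolute` turns them, with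
weights which depend on all the residues, into absolute values over the moduli. New here: this last step for the uniform law
on the integers composed of few primes, although only a dominating law has a thin spectrum, and for arbitrary choices of
integers near them (`Pool.Agent.U331.SR.core`).

From Mathlib: `ArithmeticFunction.vonMangoldt`: the function `Λ`; `Nat.totient`: Euler's function.
-/

set_option autoImplicit false

namespace Pool.Agent.Results.MP_848d44_nt.NearSmoothAverages

open Finset

/-- `ψ(x; m, a)`: the sum of `Λ(n)` over the `n ≤ x` with `n ≡ a (mod m)`. -/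
noncomputable def psi (x m a : ℕ) : ℝ :=
  ∑ n ∈ (Icc 1 x).filter (fun n => n ≡ a [MOD m]), ArithmeticFunction.vonMangoldt n

/-- `τ(m)`: the number of the divisors of `m`. -/
noncomputable def τ (m : ℕ) : ℝ := m.divisors.card

/-- The sum of `w(v) (ψ(x; m, a(v)) - x / φ(m))` over the elements `v` of `S` for which `a(v)` is coprime to `m`. -/
noncomputable def total (S : Finset ℕ) (w : ℕ → ℝ) (a : ℕ → ℕ) (x m : ℕ) : ℝ :=
  ∑ v ∈ S.filter (fun v => (a v).Coprime m), w v * (psi x m (a v) - (x : ℝ) / Nat.totient m)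

/-- The integers `1 ≤ v ≤ N` all of whose prime factors belong to `P`. -/
def composedOf (P : Finset ℕ) (N : ℕ) : Finset ℕ := (Icc 1 N).filter fun v => v.primeFactors ⊆ P

/-- The `y`-smooth integers `1 ≤ v ≤ N`: the integers all of whose prime factors are at most `y`. -/
def smooth (y N : ℕ) : Finset ℕ := (Icc 1 N).filter fun v => ∀ p ∈ v.primeFactors, p ≤ y

/-- The average over the elements `v` of `S`, with the weights `w` and the residues `a`, is small:
(1) the sum over ALL the moduli `m ≤ Q` of `τ(m) ^ T |total S w a (x m) m|` is at most `|S| X / L ^ U`;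
(2) for every `R` with `2 R ≤ Q`, the inequality `|total S w a (x m) m| ≤ |S| X / (m L ^ U)` holds for all the moduli
`R < m ≤ 2 R` with at most `R / L ^ U` exceptions. -/
def SmallOnAverage (S : Finset ℕ) (w : ℕ → ℝ) (a : ℕ → ℕ) (x : ℕ → ℕ) (T U X Q : ℕ) (L : ℝ) : Prop :=
  ∑ m ∈ Icc 1 Q, τ m ^ T * |total S w a (x m) m| ≤ S.card * (X / L ^ U) ∧
  ∀ R : ℕ, 2 * R ≤ Q →
    (((Ioc R (2 * R)).filter (fun m : ℕ => (S.card : ℝ) * (X / (m * L ^ U)) < |total S w a (x m) m|)).card : ℝ) ≤ R / L ^ U

/-- The positive integers `a(v)` are near `c + κ v`, for the elements `v` of `S` with `w(v) ≠ 0`. -/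
def Near (S : Finset ℕ) (w : ℕ → ℝ) (a : ℕ → ℕ) (c κ : ℤ) (r : ℝ) : Prop :=
  ∀ v ∈ S, w v ≠ 0 → 0 < a v ∧ |((a v - (c + κ * v) : ℤ) : ℝ)| ≤ r

lemma small_of {S : Finset ℕ} {w : ℕ → ℝ} {a : ℕ → ℕ} {x : ℕ → ℕ} {T U X Q : ℕ} {L : ℝ} (hL : 2 ≤ L) (hX : 0 < X)
    (hS : 0 < S.card) (h : ∑ m ∈ Icc 1 Q, τ m ^ T * |total S w a (x m) m| ≤ S.card * (X / L ^ (2 * U + 1))) :
    SmallOnAverage S w a x T U X Q L := by
  classical
  have hL0 : 0 < L := by linarith
  have hX0 : (0 : ℝ) < X := by exact_mod_cast hX
  have hSr : (0 : ℝ) < S.card := by exact_mod_cast hS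
  refine ⟨h.trans ?_, fun R hR => ?_⟩
  · apply mul_le_mul_of_nonneg_left _ hSr.le
    apply div_le_div_of_nonneg_left hX0.le (by positivity)
    exact pow_le_pow_right₀ (by linarith) (by omega)
  · rcases Nat.eq_zero_or_pos R with h0 | hR0
    · rw [h0]
      simp
    have hRr : (0 : ℝ) < R := by exact_mod_cast hR0
    obtain ⟨F, hF⟩ : ∃ F, F = (Ioc R (2 * R)).filter (fun m : ℕ => (S.card : ℝ) * (X / (m * L ^ U)) < |total S w a (x m) m|) := ⟨_, rfl⟩
    rw [← hF]
    have h1 : ∀ m ∈ F, (S.card : ℝ) * (X / (2 * R * L ^ U)) ≤ τ m ^ T * |total S w a (x m) m| := by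
      intro m hm
      rw [hF, mem_filter, mem_Ioc] at hm
      have hm0 : (0 : ℝ) < m := by exact_mod_cast (by omega : 0 < m)
      have hτ : (1 : ℝ) ≤ τ m := by
        unfold τ
        have : 0 < m.divisors.card := card_pos.2 ⟨1, Nat.mem_divisors.2 ⟨one_dvd _, by omega⟩⟩
        exact_mod_cast this
      have h2 : (S.card : ℝ) * (X / (2 * R * L ^ U)) ≤ S.card * (X / (m * L ^ U)) := by
        apply mul_le_mul_of_nonneg_left _ hSr.le
        apply div_le_div_of_nonneg_left hX0.le (by positivity)
        apply mul_le_mul_of_nonneg_right _ (by positivity)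
        have : m ≤ 2 * R := hm.1.2
        exact_mod_cast this
      refine h2.trans (hm.2.le.trans ?_)
      exact le_mul_of_one_le_left (abs_nonneg _) (one_le_pow₀ hτ)
    have h3 : (F.card : ℝ) * ((S.card : ℝ) * (X / (2 * R * L ^ U))) ≤ S.card * (X / L ^ (2 * U + 1)) := by
      rw [← nsmul_eq_mul, ← sum_const]
      refine (sum_le_sum h1).trans (le_trans ?_ h)
      apply sum_le_sum_of_subset_of_nonneg
      · intro m hm
        rw [hF, mem_filter, mem_Ioc] at hm
        rw [mem_Icc]
        omega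
      · intro m _ _
        unfold τ
        positivity
    have e1 : (S.card : ℝ) * (X / L ^ (2 * U + 1)) = (2 * R / L ^ (U + 1)) * ((S.card : ℝ) * (X / (2 * R * L ^ U))) := by
      have : L ^ (2 * U + 1) = L ^ (U + 1) * L ^ U := by rw [← pow_add]; congr 1; omega
      rw [this]
      field_simp
    rw [e1] at h3
    have h4 : (F.card : ℝ) ≤ 2 * R / L ^ (U + 1) := le_of_mul_le_mul_right h3 (by positivity)
    refine h4.trans ?_
    rw [pow_succ, div_le_div_iff₀ (by positivity) (by positivity)]
    have : 0 < L ^ U := by positivity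
    have h5 : 0 ≤ (R : ℝ) * L ^ U := by positivity
    nlinarith

/-- **All the error terms for the moduli `m ≤ X / exp (D (log log N) ^ 2)`, on average over residues near very smooth numbers.**
Let `A`, `T`, `U`, `W`, `K`, `B`, the integer `κ ≠ 0` and `δ > 0` be fixed. Then there is a constant `D` with the following
property. Let `N` be large, let `y ≤ log ^ K N`, let `c` be an arbitrary integer with `|c| ≤ B N`, let `X` be an integer with
`(B + |κ| + 1) N ≤ X ≤ N log ^ W X`, and let `Q ≤ X / exp (D (log log N) ^ 2)`; thus `Q = X ^ (1 - o(1))`. Let `|w(v)| ≤ log ^ T N` be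
arbitrary real coefficients and let `x(m) ≤ X` be arbitrary heights.

(1) Let `P` be an arbitrary set of primes which are at most `y`, with at least `y ^ (1 / 2 + δ)` and at least
`log ^ (1 + δ) N` elements, and let `S` be the set of the integers `v ≤ N` composed of primes from `P`. For every `v` in `S`
with `w(v) ≠ 0` let `a(v)` be an arbitrary positive integer with `|a(v) - (c + κ v)| ≤ log ^ A N`. Then the sum over ALL the
moduli `m ≤ Q` of `τ(m) ^ T` times the ABSOLUTE VALUE of the sum of `w(v) (ψ(x(m); m, a(v)) - x(m) / φ(m))` over the `v` in `S`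
with `gcd(a(v), m) = 1` is at most `|S| X / log ^ U N`, and for every `R` with `2 R ≤ Q` this sum over `v` is at most
`|S| X / (m log ^ U N)` in absolute value for all the moduli `R < m ≤ 2 R` with at most `R / log ^ U N` exceptions.

(2) In particular this holds for the set `S` of the `y`-smooth integers `v ≤ N`, if `y ≥ log ^ (1 + δ) N`. -/
theorem result (A T U W K B : ℕ) (κ : ℤ) (hκ : κ ≠ 0) (δ : ℝ) (hδ : 0 < δ) :
    ∃ D N₀ : ℕ, ∀ N, N₀ ≤ N → ∀ y : ℕ, (y : ℝ) ≤ Real.log N ^ K → ∀ c : ℤ, |c| ≤ B * N →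
      ∀ X : ℕ, (B + κ.natAbs + 1) * N ≤ X → (X : ℝ) ≤ N * Real.log X ^ W →
      ∀ Q : ℕ, (Q : ℝ) * Real.exp (D * Real.log (Real.log N) ^ 2) ≤ X →
      ∀ (w : ℕ → ℝ) (a x : ℕ → ℕ), (∀ v, |w v| ≤ Real.log N ^ T) → (∀ m, x m ≤ X) →
      (∀ P : Finset ℕ, (∀ p ∈ P, p.Prime ∧ p ≤ y) → (y : ℝ) ^ (1 / 2 + δ) ≤ P.card → Real.log N ^ (1 + δ) ≤ P.card →
        Near (composedOf P N) w a c κ (Real.log N ^ A) →
        SmallOnAverage (composedOf P N) w a x T U X Q (Real.log N)) ∧
      (Real.log N ^ (1 + δ) ≤ y → Near (smooth y N) w a c κ (Real.log N ^ A) →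
        SmallOnAverage (smooth y N) w a x T U X Q (Real.log N)) := by
  obtain ⟨δ', N1, hδ', h1⟩ := Pool.Agent.U308.SG.PR_cond2 δ hδ
  obtain ⟨D2, N2, h2⟩ := Pool.Agent.U331.SR.core κ hκ K B A T (2 * U + 1) W δ hδ
  obtain ⟨D3, N3, h3⟩ := Pool.Agent.U331.SR.core κ hκ K B A T (2 * U + 1) W δ' hδ'
  obtain ⟨N4, h4⟩ := Pool.Agent.U331.SR.logs
  refine ⟨D2 + D3, N1 + N2 + N3 + N4 + 1, fun N hN y hy c hc X hX1 hX2 Q hQ w a x hw hx => ?_⟩
  have hL := (h4 N (by omega) (D2 + D3) 0 (by omega) X Q hQ).1
  have hNX : N ≤ X := le_trans (Nat.le_mul_of_pos_left _ (by omega)) hX1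
  have hQD : ∀ D : ℕ, D ≤ D2 + D3 → (Q : ℝ) * Real.exp (D * Real.log (Real.log N) ^ 2) ≤ X := by
    intro D hD
    refine le_trans ?_ hQ
    apply mul_le_mul_of_nonneg_left _ (Nat.cast_nonneg _)
    apply Real.exp_le_exp.2
    apply mul_le_mul_of_nonneg_right _ (sq_nonneg _)
    exact_mod_cast hD
  have hcard : ∀ P : Finset ℕ, 0 < (composedOf P N).card := fun P =>
    Pool.Agent.N469.SM.card_SS_pos (P := P) (x := N) (by omega)
  refine ⟨fun P hP hc1 hc2 hnear => ?_, fun hyl hnear => ?_⟩
  · exact small_of (by linarith) (by omega) (hcard P)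
      (h2 N (by omega) P y ⟨hP, hy, hc1, hc2⟩ c hc X hX1 hX2 Q (hQD D2 (by omega)) a w x hw hnear hx)
  · have e : smooth y N = composedOf (Pool.Agent.N469.SQ.PR y) N := Pool.Agent.N469.TL.smooth_eq y N
    rw [e] at hnear ⊢
    obtain ⟨_, g2, g3⟩ := h1 N (by omega) y hyl
    exact small_of (by linarith) (by omega) (hcard _)
      (h3 N (by omega) (Pool.Agent.N469.SQ.PR y) y ⟨fun p hp => Pool.Agent.N469.SQ.mem_PR.1 hp, hy, g2, g3⟩ c hc X hX1 hX2 Q
        (hQD D3 (by omega)) a w x hw hnear hx)

end Pool.Agent.Results.MP_848d44_nt.NearSmoothAverages
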